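import Pool.Agent.Helper90.NX2.LocalAux

/-!
# Project NX2, Part B17: from a large modulus to a constant modulus

`local_main_of`: the statement `local_main` from `local_thm`, `peel` and `totient_ratio`
(given as hypotheses).
-/

set_option autoImplicit false

open Finset
open scoped BigOperators ComplexConjugate

namespace Pool.Agent.Helper67.NX2

open Pool.Agent.Helper57.NX

noncomputable section

namespace LM

/-- the statement of `local_thm` -/
def LocalThmP (s : ℕ) (d : Fin (s + 1) → ℕ) : Prop :=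
  ∃ C : ℕ, ∀ δ : ℝ, 0 < δ → δ ≤ 1 / 2 →
    ∀ K : ℕ, 1 ≤ K → (K : ℝ) ≤ δ⁻¹ → ∀ (M : ℕ) [NeZero M] (φ : Option (Fin (s + 1)) → ZMod M → ℝ),
    (∀ o x, |φ o x| ≤ 1) → δ ≤ |lfm d K M φ| →
    ∃ q : ℕ, 1 ≤ q ∧ (q : ℝ) ≤ δ⁻¹ ^ C ∧ ∀ o,
      δ ^ C ≤ 𝔼 x : ZMod M, |𝔼 a : ZMod M, φ o (x + (q : ZMod M) * a)|

/-- the statement of `peel` -/
def PeelP (s : ℕ) (d : Fin (s + 1) → ℕ) : Prop :=
  ∃ c : ℝ, 0 < c ∧ ∃ C : ℝ, 0 < C ∧
    ∀ (V : ℝ) (y K M N : ℕ) [NeZero M] [NeZero (M * N)], 0 ≤ V → 1 ≤ y → 1 ≤ K →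
    Nat.Coprime M N → Nat.Coprime K N → (∀ p : ℕ, p.Prime → p ∣ N → y < p) →
    ∀ H : Option (Fin (s + 1)) → ZMod (M * N) → ℝ, (∀ o x, |H o x| ≤ V) →
    |lfm d K (M * N) H - lfm d K M (fun o => fav M (H o))| ≤ C * V ^ (s + 2) * (y : ℝ) ^ (-c)

/-- the statement of `totient_ratio` -/
def TotRatioP : Prop :=
  ∃ C : ℝ, 0 < C ∧ ∀ M R : ℕ, 1 ≤ M → 2 ≤ R →
    (∀ p : ℕ, p.Prime → p ∣ M → p ≤ R) → (M : ℝ) / M.totient ≤ C * Real.log R

/-! ### the hybrid argument -/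

theorem prod_update {s M : ℕ} (φ : Option (Fin s) → ZMod M → ℝ) (o0 : Option (Fin s))
    (f : ZMod M → ℝ) (g : Option (Fin s) → ZMod M) :
    ∏ o, Function.update φ o0 f o (g o) = f (g o0) * ∏ o ∈ univ.erase o0, φ o (g o) := by
  rw [← Finset.mul_prod_erase univ _ (Finset.mem_univ o0), Function.update_self]
  congr 1
  apply Finset.prod_congr rfl
  intro o ho
  rw [Function.update_of_ne (Finset.ne_of_mem_erase ho)]

theorem lfm_update_sub {s : ℕ} (d : Fin s → ℕ) (K M : ℕ) [NeZero M]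
    (φ : Option (Fin s) → ZMod M → ℝ) (o0 : Option (Fin s)) (f g : ZMod M → ℝ) :
    lfm d K M (Function.update φ o0 (fun x => f x - g x)) =
      lfm d K M (Function.update φ o0 f) - lfm d K M (Function.update φ o0 g) := by
  unfold lfm
  rw [← Finset.expect_sub_distrib]
  apply Finset.expect_congr rfl
  intro ρ _
  rw [← Finset.expect_sub_distrib]
  apply Finset.expect_congr rfl
  intro κ _
  rw [prod_update φ o0 (fun x => f x - g x) (fun o => ρ + sh d ((K : ZMod M) * κ) o),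
    prod_update φ o0 f (fun o => ρ + sh d ((K : ZMod M) * κ) o),
    prod_update φ o0 g (fun o => ρ + sh d ((K : ZMod M) * κ) o)]
  ring

theorem hybrid {s : ℕ} (d : Fin s → ℕ) (K M : ℕ) [NeZero M]
    (H H' : Option (Fin s) → ZMod M → ℝ) (V B : ℝ) (hH : ∀ o x, |H o x| ≤ V)
    (hH' : ∀ o x, |H' o x| ≤ V) (hd : ∀ o x, |H o x - H' o x| ≤ V)
    (hB : ∀ (φ : Option (Fin s) → ZMod M → ℝ) (o0 : Option (Fin s)), (∀ o x, |φ o x| ≤ V) →
      (∀ x, φ o0 x = H o0 x - H' o0 x) → |lfm d K M φ| ≤ B) :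
    |lfm d K M H - lfm d K M H'| ≤ (s + 1) * B := by
  classical
  have key : ∀ S : Finset (Option (Fin s)),
      |lfm d K M H - lfm d K M (fun o => if o ∈ S then H' o else H o)| ≤ S.card * B := by
    intro S
    induction S using Finset.induction_on with
    | empty => simp
    | insert o0 S ho0 ih =>
      set m1 : Option (Fin s) → ZMod M → ℝ := fun o => if o ∈ S then H' o else H o with hm1
      set m2 : Option (Fin s) → ZMod M → ℝ := fun o => if o ∈ insert o0 S then H' o else H o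
        with hm2
      have e1 : m1 = Function.update m1 o0 (H o0) := by
        have : m1 o0 = H o0 := by simp [hm1, ho0]
        rw [← this, Function.update_eq_self]
      have e2 : m2 = Function.update m1 o0 (H' o0) := by
        funext o
        by_cases ho : o = o0
        · subst ho
          simp [hm2]
        · rw [Function.update_of_ne ho]
          simp [hm1, hm2, ho]
      have e3 : lfm d K M m1 - lfm d K M m2 =
          lfm d K M (Function.update m1 o0 (fun x => H o0 x - H' o0 x)) := by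
        rw [lfm_update_sub, ← e1, ← e2]
      have e4 : |lfm d K M m1 - lfm d K M m2| ≤ B := by
        rw [e3]
        apply hB _ o0
        · intro o x
          by_cases ho : o = o0
          · subst ho
            rw [Function.update_self]
            exact hd o x
          · rw [Function.update_of_ne ho]
            by_cases hoS : o ∈ S
            · simp only [hm1, hoS, if_true]
              exact hH' o x
            · simp only [hm1, hoS, if_false]
              exact hH o x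
        · intro x
          rw [Function.update_self]
      rw [Finset.card_insert_of_notMem ho0]
      push_cast
      calc |lfm d K M H - lfm d K M m2|
          = |(lfm d K M H - lfm d K M m1) + (lfm d K M m1 - lfm d K M m2)| := by
            congr 1; ring
        _ ≤ |lfm d K M H - lfm d K M m1| + |lfm d K M m1 - lfm d K M m2| := abs_add_le _ _
        _ ≤ S.card * B + B := add_le_add ih e4
        _ = (S.card + 1) * B := by ring
  have h := key univ
  simp only [Finset.mem_univ, if_true, Finset.card_univ, Fintype.card_option,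
    Fintype.card_fin] at h
  push_cast at h
  exact h

theorem lfm_smul {s : ℕ} (d : Fin s → ℕ) (K M : ℕ) [NeZero M] (V : ℝ)
    (φ : Option (Fin s) → ZMod M → ℝ) :
    lfm d K M (fun o x => V * φ o x) = V ^ (s + 1) * lfm d K M φ := by
  unfold lfm
  rw [Finset.mul_expect]
  apply Finset.expect_congr rfl
  intro ρ _
  rw [Finset.mul_expect]
  apply Finset.expect_congr rfl
  intro κ _
  rw [Finset.prod_mul_distrib, Finset.prod_const, Finset.card_univ, Fintype.card_option,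
    Fintype.card_fin]

theorem fav_mem {M M' : ℕ} [NeZero M] (h : M' ∣ M) {H : ZMod M → ℝ} {V : ℝ}
    (h0 : ∀ x, 0 ≤ H x) (hV : ∀ x, H x ≤ V) (ρ : ZMod M') : 0 ≤ fav M' H ρ ∧ fav M' H ρ ≤ V := by
  obtain ⟨x, rfl⟩ := red_surj h ρ
  rw [fav_eq h]
  refine ⟨Finset.expect_nonneg (fun b _ => h0 _), ?_⟩
  exact Finset.expect_le (Finset.univ_nonempty) (fun b _ => hV _)

/-- the last step: from a smooth modulus to `K'` -/
theorem last_step {s : ℕ} {d : Fin (s + 1) → ℕ} {C : ℕ}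
    (hloc : ∀ δ : ℝ, 0 < δ → δ ≤ 1 / 2 →
      ∀ K : ℕ, 1 ≤ K → (K : ℝ) ≤ δ⁻¹ → ∀ (M : ℕ) [NeZero M]
      (φ : Option (Fin (s + 1)) → ZMod M → ℝ), (∀ o x, |φ o x| ≤ 1) → δ ≤ |lfm d K M φ| →
      ∃ q : ℕ, 1 ≤ q ∧ (q : ℝ) ≤ δ⁻¹ ^ C ∧ ∀ o,
        δ ^ C ≤ 𝔼 x : ZMod M, |𝔼 a : ZMod M, φ o (x + (q : ZMod M) * a)|)
    {δ V1 : ℝ} (hδ : 0 < δ) (hδ2 : δ ≤ 1 / 2) (hV1 : 0 < V1) {K : ℕ} (hK : 1 ≤ K)
    (hKδ : (K : ℝ) ≤ δ⁻¹) {M K' : ℕ} [NeZero M] [NeZero K'] (h : K' ∣ M)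
    (hg : ∀ g : ℕ, g ∣ M → (g : ℝ) ≤ δ⁻¹ ^ C → g ∣ K')
    (H : Option (Fin (s + 1)) → ZMod M → ℝ) (h0 : ∀ o x, 0 ≤ H o x) (hV : ∀ o x, H o x ≤ V1) :
    |lfm d K M H - lfm d K K' (fun o => fav K' (H o))| ≤ ((s : ℝ) + 2) * (V1 ^ (s + 2) * δ) := by
  rw [← lfm_red d K h (fun o => fav K' (H o))]
  have hm := fun o (x : ZMod M) => fav_mem h (h0 o) (hV o) (red h x)
  have hmain := hybrid d K M H (fun o x => fav K' (H o) (red h x)) V1 (V1 ^ (s + 2) * δ)
    (fun o x => by rw [abs_of_nonneg (h0 o x)]; exact hV o x)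
    (fun o x => by
      show |fav K' (H o) (red h x)| ≤ V1
      rw [abs_of_nonneg (hm o x).1]; exact (hm o x).2)
    (fun o x => by
      show |H o x - fav K' (H o) (red h x)| ≤ V1
      rw [abs_le]
      have h1 := hm o x
      have h2 := h0 o x
      have h3 := hV o x
      constructor <;> linarith [h1.1, h1.2])
    (fun φ o0 hφ hφ0 => by
      by_contra hcon
      push Not at hcon
      set ψ : Option (Fin (s + 1)) → ZMod M → ℝ := fun o x => φ o x / V1 with hψ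
      have e1 : lfm d K M φ = V1 ^ (s + 2) * lfm d K M ψ := by
        have := lfm_smul d K M V1 ψ
        rw [← this]
        congr 1
        funext o x
        simp only [hψ]
        field_simp
      have hψ1 : ∀ o x, |ψ o x| ≤ 1 := by
        intro o x
        simp only [hψ]
        rw [abs_div, abs_of_pos hV1, div_le_one hV1]
        exact hφ o x
      have hψδ : δ ≤ |lfm d K M ψ| := by
        rw [e1, abs_mul, abs_of_pos (pow_pos hV1 _)] at hcon
        exact (lt_of_mul_lt_mul_left hcon (pow_pos hV1 _).le).le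
      obtain ⟨q, hq1, hq2, hq3⟩ := hloc δ hδ hδ2 K hK hKδ M ψ hψ1 hψδ
      have hgq : Nat.gcd q M ∣ K' := by
        apply hg _ (Nat.gcd_dvd_right q M)
        refine le_trans ?_ hq2
        exact_mod_cast Nat.gcd_le_left M (by omega)
      have hz : ∀ x : ZMod M, 𝔼 a : ZMod M, ψ o0 (x + (q : ZMod M) * a) = 0 := by
        apply ap_zero h q hgq
        intro ρ
        obtain ⟨x, rfl⟩ := red_surj h ρ
        rw [fav_eq h]
        have e2 : ∀ b : ZMod M, ψ o0 (x + (K' : ZMod M) * b) =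
            (H o0 (x + (K' : ZMod M) * b) - fav K' (H o0) (red h x)) / V1 := by
          intro b
          simp only [hψ]
          rw [hφ0]
          congr 2
          show fav K' (H o0) (red h (x + (K' : ZMod M) * b)) = _
          rw [map_add, red_mul_self, add_zero]
        simp_rw [e2]
        rw [← Finset.expect_div, Finset.expect_sub_distrib, ← fav_eq h,
          Fintype.expect_const, sub_self, zero_div]
      have h4 := hq3 o0
      simp_rw [hz] at h4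
      simp only [abs_zero, Finset.expect_const_zero] at h4
      exact absurd h4 (not_le.mpr (pow_pos hδ C)))
  push_cast at hmain
  calc _ ≤ _ := hmain
    _ = _ := by ring

/-! ### the smooth part -/

theorem split (y M : ℕ) (hM : M ≠ 0) : ∃ M1 N : ℕ, M = M1 * N ∧
    (∀ p : ℕ, p.Prime → p ∣ M1 → p ≤ y) ∧ (∀ p : ℕ, p.Prime → p ∣ N → y < p) := by
  induction M using induction_on_primes with
  | zero => exact absurd rfl hM
  | one =>
    exact ⟨1, 1, rfl, fun p hp h => absurd (Nat.dvd_one.mp h) hp.ne_one,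
      fun p hp h => absurd (Nat.dvd_one.mp h) hp.ne_one⟩
  | prime_mul p a hp ih =>
    obtain ⟨M1, N, h1, h2, h3⟩ := ih (fun h => hM (by rw [h, mul_zero]))
    by_cases hpy : p ≤ y
    · refine ⟨p * M1, N, by rw [h1]; ring, ?_, h3⟩
      intro q hq hqd
      rcases (Nat.Prime.dvd_mul hq).mp hqd with h | h
      · rw [(Nat.prime_dvd_prime_iff_eq hq hp).mp h]
        exact hpy
      · exact h2 q hq h
    · refine ⟨M1, p * N, by rw [h1]; ring, h2, ?_⟩
      intro q hq hqd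
      rcases (Nat.Prime.dvd_mul hq).mp hqd with h | h
      · rw [(Nat.prime_dvd_prime_iff_eq hq hp).mp h]
        exact not_le.mp hpy
      · exact h3 q hq h

theorem coprime_of_smooth {y M N : ℕ} (h1 : ∀ p : ℕ, p.Prime → p ∣ M → p ≤ y)
    (h2 : ∀ p : ℕ, p.Prime → p ∣ N → y < p) : Nat.Coprime M N := by
  apply Nat.coprime_of_dvd
  intro p hp hpM hpN
  exact absurd (h1 p hp hpM) (not_le.mpr (h2 p hp hpN))

/-- the chain of peelings -/
theorem chain {s : ℕ} {d : Fin (s + 1) → ℕ} {c C C1 V : ℝ} (hC1 : 0 < C1)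
    (hpeel : ∀ (V : ℝ) (y K M N : ℕ) [NeZero M] [NeZero (M * N)], 0 ≤ V → 1 ≤ y → 1 ≤ K →
      Nat.Coprime M N → Nat.Coprime K N → (∀ p : ℕ, p.Prime → p ∣ N → y < p) →
      ∀ H : Option (Fin (s + 1)) → ZMod (M * N) → ℝ, (∀ o x, |H o x| ≤ V) →
      |lfm d K (M * N) H - lfm d K M (fun o => fav M (H o))| ≤ C * V ^ (s + 2) * (y : ℝ) ^ (-c))
    (htot : ∀ M R : ℕ, 1 ≤ M → 2 ≤ R →
      (∀ p : ℕ, p.Prime → p ∣ M → p ≤ R) → (M : ℝ) / M.totient ≤ C1 * Real.log R)
    (hV : 0 ≤ V) {w K : ℕ} (hw : 2 ≤ w) (hK : 1 ≤ K) (hKw : ∀ p : ℕ, p.Prime → p ∣ K → p ≤ w) :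
    ∀ J : ℕ, ∀ (M : ℕ) [NeZero M], (∀ p : ℕ, p.Prime → p ∣ M → p ≤ w ^ (2 ^ J)) →
    ∀ H : Option (Fin (s + 1)) → ZMod M → ℝ, (∀ o ρ, 0 ≤ H o ρ) →
    (∀ M' : ℕ, M' ∣ M → ∀ o ρ, fav M' (H o) ρ ≤ V * (M' / M'.totient)) →
    ∃ (Mw : ℕ) (_ : NeZero Mw), Mw ∣ M ∧ (∀ p : ℕ, p.Prime → p ∣ Mw → p ≤ w) ∧
      (∀ K' : ℕ, K' ∣ M → (∀ p : ℕ, p.Prime → p ∣ K' → p ≤ w) → K' ∣ Mw) ∧
      |lfm d K M H - lfm d K Mw (fun o => fav Mw (H o))| ≤
        ∑ j ∈ range J, C * (V * (C1 * Real.log ((w : ℝ) ^ (2 ^ (j + 1))))) ^ (s + 2) *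
          ((w : ℝ) ^ (2 ^ j)) ^ (-c) := by
  intro J
  induction J with
  | zero =>
    intro M _ hM H h0 hb
    refine ⟨M, inferInstance, dvd_refl M, by simpa using hM, fun K' h _ => h, ?_⟩
    have : (fun o => fav M (H o)) = H := by
      funext o x
      exact fav_self (H o) x
    rw [this]
    simp
  | succ J ih =>
    intro M _ hM H h0 hb
    obtain ⟨M1, N, hMN, hM1, hN⟩ := split (w ^ (2 ^ J)) M (NeZero.ne M)
    subst hMN
    have hM10 : M1 ≠ 0 := left_ne_zero_of_mul (NeZero.ne (M1 * N))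
    have : NeZero M1 := ⟨hM10⟩
    have hwJ : w ≤ w ^ (2 ^ J) := Nat.le_self_pow (by positivity) w
    have hcop : Nat.Coprime M1 N := coprime_of_smooth hM1 hN
    have hcopK : Nat.Coprime K N :=
      coprime_of_smooth (fun p hp h => (hKw p hp h).trans hwJ) hN
    have hw1 : 1 ≤ w ^ (2 ^ J) := Nat.one_le_pow _ _ (by omega)
    have hR : 2 ≤ w ^ (2 ^ (J + 1)) := le_trans hw (Nat.le_self_pow (by positivity) w)
    set V' : ℝ := V * (C1 * Real.log ((w : ℝ) ^ (2 ^ (J + 1)))) with hV'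
    have hlog : 0 ≤ Real.log ((w : ℝ) ^ (2 ^ (J + 1))) := by
      apply Real.log_nonneg
      have : (1 : ℝ) ≤ w := by exact_mod_cast (by omega : 1 ≤ w)
      exact one_le_pow₀ this
    have hV'0 : 0 ≤ V' := mul_nonneg hV (mul_nonneg hC1.le hlog)
    have hbd : ∀ o x, |H o x| ≤ V' := by
      intro o x
      rw [abs_of_nonneg (h0 o x)]
      have h1 := hb (M1 * N) (dvd_refl _) o x
      rw [fav_self] at h1
      refine h1.trans ?_
      apply mul_le_mul_of_nonneg_left _ hV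
      have h2 := htot (M1 * N) (w ^ (2 ^ (J + 1))) (Nat.one_le_iff_ne_zero.mpr (NeZero.ne _)) hR hM
      push_cast at h2 ⊢
      exact h2
    have hp := hpeel V' (w ^ (2 ^ J)) K M1 N hV'0 hw1 hK hcop hcopK hN H hbd
    push_cast at hp
    obtain ⟨Mw, hMw0, hMw1, hMw2, hMw3, hMw4⟩ := ih M1 hM1 (fun o => fav M1 (H o))
      (fun o ρ => fav_nonneg (h0 o) ρ)
      (fun M' hM' o ρ => by
        show fav M' (fav M1 (H o)) ρ ≤ _
        rw [fav_fav hM' (dvd_mul_right M1 N)]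
        exact hb M' (hM'.trans (dvd_mul_right M1 N)) o ρ)
    refine ⟨Mw, hMw0, hMw1.trans (dvd_mul_right M1 N), hMw2, ?_, ?_⟩
    · intro K' hK' hK'w
      apply hMw3 K' _ hK'w
      have : Nat.Coprime K' N := coprime_of_smooth (fun p hp h => (hK'w p hp h).trans hwJ) hN
      exact this.dvd_of_dvd_mul_right hK'
    · have e1 : (fun o => fav Mw (fav M1 (H o))) = fun o => fav Mw (H o) := by
        funext o ρ
        exact fav_fav hMw1 (dvd_mul_right M1 N) (H o) ρ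
      rw [e1] at hMw4
      rw [Finset.sum_range_succ]
      calc |lfm d K (M1 * N) H - lfm d K Mw (fun o => fav Mw (H o))|
          = |(lfm d K (M1 * N) H - lfm d K M1 (fun o => fav M1 (H o))) +
              (lfm d K M1 (fun o => fav M1 (H o)) - lfm d K Mw (fun o => fav Mw (H o)))| := by
            congr 1; ring
        _ ≤ |lfm d K (M1 * N) H - lfm d K M1 (fun o => fav M1 (H o))| +
            |lfm d K M1 (fun o => fav M1 (H o)) - lfm d K Mw (fun o => fav Mw (H o))| :=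
            abs_add_le _ _
        _ ≤ _ := by
            rw [add_comm]
            exact add_le_add hMw4 hp

/-! ### numerical bounds -/

theorem term_bound {c C C1 V : ℝ} (hc : 0 < c) (hC : 0 < C) (hC1 : 0 < C1) (hV : 0 < V) (n : ℕ)
    (hn : 1 ≤ n) :
    ∃ B : ℝ, 0 < B ∧ ∀ t : ℝ, 1 ≤ t →
      C * (V * (C1 * (2 * Real.log t))) ^ n * t ^ (-c) ≤ B * t ^ (-(c / 2)) := by
  have hn0 : (0 : ℝ) < n := by exact_mod_cast hn
  set ε : ℝ := c / 2 / n with hε
  have hε0 : 0 < ε := by positivity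
  refine ⟨C * (V * (C1 * (2 / ε))) ^ n, by positivity, ?_⟩
  intro t ht
  have ht0 : 0 < t := by linarith
  have hlog0 : 0 ≤ Real.log t := Real.log_nonneg ht
  have h1 : Real.log t ≤ t ^ ε / ε := Real.log_le_rpow_div ht0.le hε0
  have h2 : V * (C1 * (2 * Real.log t)) ≤ V * (C1 * (2 / ε)) * t ^ ε := by
    have : V * (C1 * (2 * Real.log t)) ≤ V * (C1 * (2 * (t ^ ε / ε))) := by gcongr
    refine this.trans (le_of_eq ?_)
    ring
  have h3 : (V * (C1 * (2 * Real.log t))) ^ n ≤ (V * (C1 * (2 / ε)) * t ^ ε) ^ n :=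
    pow_le_pow_left₀ (by positivity) h2 n
  have h4 : (t ^ ε) ^ n = t ^ (c / 2) := by
    rw [← Real.rpow_natCast, ← Real.rpow_mul ht0.le]
    congr 1
    rw [hε]
    field_simp
  have h5 : t ^ (c / 2) * t ^ (-c) = t ^ (-(c / 2)) := by
    rw [← Real.rpow_add ht0]
    congr 1
    ring
  calc C * (V * (C1 * (2 * Real.log t))) ^ n * t ^ (-c)
      ≤ C * (V * (C1 * (2 / ε)) * t ^ ε) ^ n * t ^ (-c) := by
        have : 0 ≤ t ^ (-c) := Real.rpow_nonneg ht0.le _
        gcongr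
    _ = C * (V * (C1 * (2 / ε))) ^ n * (t ^ (c / 2) * t ^ (-c)) := by
        rw [mul_pow, h4]; ring
    _ = _ := by rw [h5]

theorem sum_bound {c C C1 V κ : ℝ} (hc : 0 < c) (hC : 0 < C) (hC1 : 0 < C1) (hV : 0 < V)
    (hκ : 0 < κ) (n : ℕ) (hn : 1 ≤ n) :
    ∃ w0 : ℕ, 2 ≤ w0 ∧ ∀ w : ℕ, w0 ≤ w → ∀ J : ℕ,
      ∑ j ∈ range J, C * (V * (C1 * Real.log ((w : ℝ) ^ (2 ^ (j + 1))))) ^ n *
          ((w : ℝ) ^ (2 ^ j)) ^ (-c) ≤ κ / 2 := by
  obtain ⟨B, hB, hterm⟩ := term_bound hc hC hC1 hV n hn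
  have hlim : Filter.Tendsto (fun w : ℕ => ((w : ℝ)) ^ (-(c / 2))) Filter.atTop (nhds 0) :=
    (tendsto_rpow_neg_atTop (by positivity : 0 < c / 2)).comp tendsto_natCast_atTop_atTop
  have hpos : 0 < min (1 / 2 : ℝ) (κ / (4 * B)) := by positivity
  have hev := (hlim.eventually (gt_mem_nhds hpos))
  obtain ⟨w1, hw1⟩ := Filter.eventually_atTop.mp hev
  refine ⟨max 2 w1, le_max_left _ _, ?_⟩
  intro w hw J
  have hw2 : 2 ≤ w := (le_max_left _ _).trans hw
  have hw1' := hw1 w ((le_max_right _ _).trans hw)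
  set r : ℝ := (w : ℝ) ^ (-(c / 2)) with hr
  have hwr : (1 : ℝ) ≤ w := by exact_mod_cast (by omega : 1 ≤ w)
  have hr0 : 0 < r := Real.rpow_pos_of_pos (by linarith) _
  have hr1 : r ≤ 1 / 2 := (hw1'.trans_le (min_le_left _ _)).le
  have hr2 : r ≤ κ / (4 * B) := (hw1'.trans_le (min_le_right _ _)).le
  have hj : ∀ j ∈ range J, C * (V * (C1 * Real.log ((w : ℝ) ^ (2 ^ (j + 1))))) ^ n *
          ((w : ℝ) ^ (2 ^ j)) ^ (-c) ≤ B * (r * r ^ j) := by
    intro j _
    have ht1 : (1 : ℝ) ≤ (w : ℝ) ^ (2 ^ j) := one_le_pow₀ hwr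
    have e1 : Real.log ((w : ℝ) ^ (2 ^ (j + 1))) = 2 * Real.log ((w : ℝ) ^ (2 ^ j)) := by
      rw [pow_succ, pow_mul, Real.log_pow]
      push_cast
      ring
    rw [e1]
    refine (hterm _ ht1).trans ?_
    apply mul_le_mul_of_nonneg_left _ hB.le
    have e2 : ((w : ℝ) ^ (2 ^ j)) ^ (-(c / 2)) = r ^ (2 ^ j) := by
      rw [hr, ← Real.rpow_natCast, ← Real.rpow_natCast, ← Real.rpow_mul (by linarith),
        ← Real.rpow_mul (by linarith)]
      congr 1
      ring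
    rw [e2, ← pow_succ']
    exact pow_le_pow_of_le_one hr0.le (by linarith) (Nat.lt_two_pow_self)
  refine (Finset.sum_le_sum hj).trans ?_
  rw [← Finset.mul_sum, ← Finset.mul_sum]
  have hgeom : ∑ j ∈ range J, r ^ j ≤ 2 := by
    have h1 : (1 - r) * ∑ j ∈ range J, r ^ j = 1 - r ^ J := by
      have := mul_neg_geom_sum r J
      exact this
    have h2 : 0 ≤ r ^ J := by positivity
    have h3 : 0 ≤ ∑ j ∈ range J, r ^ j := Finset.sum_nonneg (fun j _ => by positivity)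
    nlinarith
  have h4 : B * r ≤ κ / 4 := by
    rw [le_div_iff₀ (by positivity)] at hr2
    linarith
  calc B * (r * ∑ j ∈ range J, r ^ j) = (B * r) * ∑ j ∈ range J, r ^ j := by ring
    _ ≤ (κ / 4) * 2 := by
        apply mul_le_mul h4 hgeom (Finset.sum_nonneg (fun j _ => by positivity)) (by positivity)
    _ = κ / 2 := by ring

/-! ### the modulus `K'` -/

/-- the product of the primes up to `w` -/
def prw (w : ℕ) : ℕ := ∏ p ∈ (range (w + 1)).filter Nat.Prime, p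

theorem prw_ne_zero (w : ℕ) : prw w ≠ 0 := by
  unfold prw
  rw [Finset.prod_ne_zero_iff]
  intro p hp
  exact (Finset.mem_filter.mp hp).2.ne_zero

theorem prime_dvd_prw {w p : ℕ} (hp : p.Prime) : p ∣ prw w ↔ p ≤ w := by
  unfold prw
  rw [hp.prime.dvd_finsetProd_iff]
  constructor
  · rintro ⟨q, hq, hpq⟩
    rw [Finset.mem_filter, Finset.mem_range] at hq
    rw [(Nat.prime_dvd_prime_iff_eq hp hq.2).mp hpq]
    omega
  · intro h
    exact ⟨p, Finset.mem_filter.mpr ⟨Finset.mem_range.mpr (by omega), hp⟩, dvd_refl p⟩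

theorem dvd_prw_pow {w g e : ℕ} (hg0 : g ≠ 0) (hg : ∀ p : ℕ, p.Prime → p ∣ g → p ≤ w)
    (hge : g < 2 ^ e) : g ∣ prw w ^ e := by
  rw [← Nat.factorization_le_iff_dvd hg0 (pow_ne_zero _ (prw_ne_zero w))]
  intro p
  rw [Nat.factorization_pow]
  by_cases hp : p.Prime
  · by_cases hpg : p ∣ g
    · have h1 : 1 ≤ (prw w).factorization p :=
        (hp.dvd_iff_one_le_factorization (prw_ne_zero w)).mp ((prime_dvd_prw hp).mpr (hg p hp hpg))
      have h2 : p ^ g.factorization p ≤ g := Nat.ordProj_le p hg0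
      have h3 : 2 ^ g.factorization p ≤ p ^ g.factorization p :=
        Nat.pow_le_pow_left hp.two_le _
      have h4 : g.factorization p < e := (Nat.pow_lt_pow_iff_right (by norm_num)).mp
        ((h3.trans h2).trans_lt hge)
      show g.factorization p ≤ e * (prw w).factorization p
      nlinarith
    · rw [Nat.factorization_eq_zero_of_not_dvd hpg]
      exact Nat.zero_le _
  · rw [Nat.factorization_eq_zero_of_not_prime _ hp]
    exact Nat.zero_le _

end LM

open LM in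
/-- `local_main` from `local_thm`, `peel` and `totient_ratio` -/
theorem local_main_of (s : ℕ) (d : Fin (s + 1) → ℕ) (hlocal : LocalThmP s d) (hpeel : PeelP s d)
    (htot : TotRatioP) (V κ : ℝ) (hV : 1 ≤ V) (hκ : 0 < κ) :
    ∃ w0 : ℕ, ∀ w : ℕ, w0 ≤ w → ∀ K : ℕ, 1 ≤ K → (∀ p : ℕ, p.Prime → p ∣ K → p ≤ w) →
    ∃ (K' : ℕ) (_ : NeZero K'), K ∣ K' ∧ (∀ p : ℕ, p.Prime → (p ∣ K' ↔ p ≤ w)) ∧
    ∀ (M : ℕ) [NeZero M], K' ∣ M → ∀ H : Option (Fin (s + 1)) → ZMod M → ℝ, (∀ o ρ, 0 ≤ H o ρ) →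
    (∀ M' : ℕ, M' ∣ M → ∀ o ρ, fav M' (H o) ρ ≤ V * (M' / M'.totient)) →
    |lfm d K M H - lfm d K K' (fun o => fav K' (H o))| ≤ κ := by
  obtain ⟨C0, hloc⟩ := hlocal
  obtain ⟨c, hc, C, hC, hpl⟩ := hpeel
  obtain ⟨C1, hC1, htr⟩ := htot
  have hV0 : 0 < V := by linarith
  obtain ⟨w0, hw0, hsum⟩ := sum_bound hc hC hC1 hV0 hκ (s + 2) (by omega)
  refine ⟨w0, ?_⟩
  intro w hw K hK hKw
  have hw2 : 2 ≤ w := hw0.trans hw
  set V1 : ℝ := max 1 (V * (C1 * Real.log w)) with hV1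
  have hV1p : 1 ≤ V1 := le_max_left _ _
  have hV1p0 : 0 < V1 := by linarith
  have hKr : (1 : ℝ) ≤ K := by exact_mod_cast hK
  set δ : ℝ := min (κ / (2 * (((s : ℝ) + 2) * V1 ^ (s + 2)))) (min ((K : ℝ)⁻¹) (1 / 2)) with hδ
  have hδ0 : 0 < δ := by
    rw [hδ]
    refine lt_min (by positivity) (lt_min (by positivity) (by norm_num))
  have hδ2 : δ ≤ 1 / 2 := (min_le_right _ _).trans (min_le_right _ _)
  have hδK : (K : ℝ) ≤ δ⁻¹ := by
    have h1 : δ ≤ (K : ℝ)⁻¹ := (min_le_right _ _).trans (min_le_left _ _)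
    exact (le_inv_comm₀ hδ0 (by positivity)).mp h1
  have hδκ : ((s : ℝ) + 2) * (V1 ^ (s + 2) * δ) ≤ κ / 2 := by
    have h1 : δ ≤ κ / (2 * (((s : ℝ) + 2) * V1 ^ (s + 2))) := min_le_left _ _
    rw [le_div_iff₀ (by positivity)] at h1
    linarith
  obtain ⟨e, he⟩ : ∃ e : ℕ, δ⁻¹ ^ C0 < (2 : ℝ) ^ e :=
    pow_unbounded_of_one_lt _ (by norm_num)
  have he1 : 1 ≤ e + 1 := by omega
  have hP0 : prw w ≠ 0 := prw_ne_zero w
  have hK'0 : K * prw w ^ (e + 1) ≠ 0 := mul_ne_zero (by omega) (pow_ne_zero _ hP0)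
  have hK'p : ∀ p : ℕ, p.Prime → (p ∣ K * prw w ^ (e + 1) ↔ p ≤ w) := by
    intro p hp
    constructor
    · intro h
      rcases (Nat.Prime.dvd_mul hp).mp h with h | h
      · exact hKw p hp h
      · exact (prime_dvd_prw hp).mp (hp.dvd_of_dvd_pow h)
    · intro h
      exact Dvd.dvd.mul_left (dvd_pow ((prime_dvd_prw hp).mpr h) (by omega)) K
  refine ⟨K * prw w ^ (e + 1), ⟨hK'0⟩, dvd_mul_right _ _, hK'p, ?_⟩
  intro M _ hM H h0 hb
  have : NeZero (K * prw w ^ (e + 1)) := ⟨hK'0⟩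
  have hMJ : ∀ p : ℕ, p.Prime → p ∣ M → p ≤ w ^ (2 ^ M) := by
    intro p _ hpM
    have h1 : p ≤ M := Nat.le_of_dvd (Nat.pos_of_ne_zero (NeZero.ne M)) hpM
    have h2 : M < 2 ^ M := Nat.lt_two_pow_self
    have h3 : 2 ^ M < 2 ^ (2 ^ M) := Nat.pow_lt_pow_right (by norm_num) h2
    have h4 : 2 ^ (2 ^ M) ≤ w ^ (2 ^ M) := Nat.pow_le_pow_left hw2 _
    omega
  obtain ⟨Mw, hMw0, hMw1, hMw2, hMw3, hMw4⟩ :=
    chain hC1 hpl htr hV0.le hw2 hK hKw M M hMJ H h0 hb
  have hK'M : K * prw w ^ (e + 1) ∣ Mw := hMw3 _ hM (fun p hp h => (hK'p p hp).mp h)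
  have hbw : ∀ o x, fav Mw (H o) x ≤ V1 := by
    intro o x
    refine (hb Mw hMw1 o x).trans (le_trans ?_ (le_max_right _ _))
    apply mul_le_mul_of_nonneg_left _ hV0.le
    exact htr Mw w (Nat.one_le_iff_ne_zero.mpr (NeZero.ne _)) hw2 hMw2
  have hlast := last_step hloc hδ0 hδ2 hV1p0 hK hδK hK'M
    (fun g hgM hgb => by
      have hg0 : g ≠ 0 := fun h => NeZero.ne Mw (Nat.eq_zero_of_zero_dvd (h ▸ hgM))
      have hg2 : g < 2 ^ e := by
        have : (g : ℝ) < (2 : ℝ) ^ e := hgb.trans_lt he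
        exact_mod_cast this
      have h1 : g ∣ prw w ^ e :=
        dvd_prw_pow hg0 (fun p hp h => hMw2 p hp (h.trans hgM)) hg2
      exact (h1.trans (pow_dvd_pow _ (by omega))).trans (dvd_mul_left _ _))
    (fun o => fav Mw (H o)) (fun o x => fav_nonneg (h0 o) x) hbw
  have e1 : (fun o => fav (K * prw w ^ (e + 1)) (fav Mw (H o))) =
      fun o => fav (K * prw w ^ (e + 1)) (H o) := by
    funext o ρ
    exact fav_fav hK'M hMw1 (H o) ρ
  rw [e1] at hlast
  calc |lfm d K M H - lfm d K (K * prw w ^ (e + 1)) (fun o => fav (K * prw w ^ (e + 1)) (H o))|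
      = |(lfm d K M H - lfm d K Mw (fun o => fav Mw (H o))) +
          (lfm d K Mw (fun o => fav Mw (H o)) -
            lfm d K (K * prw w ^ (e + 1)) (fun o => fav (K * prw w ^ (e + 1)) (H o)))| := by
        congr 1; ring
    _ ≤ |lfm d K M H - lfm d K Mw (fun o => fav Mw (H o))| +
        |lfm d K Mw (fun o => fav Mw (H o)) -
          lfm d K (K * prw w ^ (e + 1)) (fun o => fav (K * prw w ^ (e + 1)) (H o))| :=
        abs_add_le _ _
    _ ≤ κ / 2 + κ / 2 := by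
        refine add_le_add (hMw4.trans (hsum w hw M)) (hlast.trans hδκ)
    _ = κ := by ring

end

end Pool.Agent.Helper67.NX2
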