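import Pool.Agent.Helper67.NX2.DefsB

/-!
# Project NX2, Part B17 (auxiliary lemmas): averages over fibres of `ZMod M → ZMod M'`
-/

set_option autoImplicit false

open Finset
open scoped BigOperators ComplexConjugate

namespace Pool.Agent.Helper67.NX2

open Pool.Agent.Helper57.NX

noncomputable section

namespace LM

/-- the reduction map as a ring homomorphism -/
def red {M M' : ℕ} (h : M' ∣ M) : ZMod M →+* ZMod M' := ZMod.castHom h (ZMod M')

theorem red_eq {M M' : ℕ} [NeZero M] (h : M' ∣ M) (x : ZMod M) :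
    red h x = ((x.val : ℕ) : ZMod M') := by
  unfold red
  rw [ZMod.castHom_apply, ZMod.natCast_val]

theorem red_surj {M M' : ℕ} (h : M' ∣ M) : Function.Surjective (red h) :=
  ZMod.castHom_surjective h

theorem red_natCast {M M' : ℕ} (h : M' ∣ M) (n : ℕ) : red h (n : ZMod M) = (n : ZMod M') :=
  map_natCast (red h) n

/-- translation invariance -/
theorem expect_shift {G : Type*} [AddCommGroup G] [Fintype G] (f : G → ℝ) (a : G) :
    𝔼 x : G, f (x + a) = 𝔼 x : G, f x :=
  Fintype.expect_equiv (Equiv.addRight a) _ _ (fun _ => rfl)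

/-- averages along a surjective homomorphism -/
theorem expect_surj {G G' : Type*} [AddCommGroup G] [Fintype G] [AddCommGroup G'] [Fintype G']
    (φ : G →+ G') (hφ : Function.Surjective φ) (f : G' → ℝ) :
    𝔼 x : G, f (φ x) = 𝔼 y : G', f y := by
  have h1 : ∀ b : G', 𝔼 x : G, f (φ x + b) = 𝔼 x : G, f (φ x) := by
    intro b
    obtain ⟨a, rfl⟩ := hφ b
    simp_rw [← map_add]
    exact expect_shift (fun x => f (φ x)) a
  have h2 : 𝔼 b : G', 𝔼 x : G, f (φ x + b) = 𝔼 x : G, f (φ x) := by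
    simp_rw [h1]
    exact Fintype.expect_const _
  rw [← h2, Finset.expect_comm]
  have h3 : ∀ x : G, 𝔼 b : G', f (φ x + b) = 𝔼 b : G', f b := by
    intro x
    simp_rw [add_comm (φ x)]
    exact expect_shift f (φ x)
  simp_rw [h3]
  exact Fintype.expect_const _

theorem expect_red {M M' : ℕ} [NeZero M] [NeZero M'] (h : M' ∣ M) (f : ZMod M' → ℝ) :
    𝔼 x : ZMod M, f (red h x) = 𝔼 y : ZMod M', f y :=
  expect_surj (red h).toAddMonoidHom (red_surj h) f

theorem red_ker {M M' : ℕ} [NeZero M] (h : M' ∣ M) (x : ZMod M) (hx : red h x = 0) :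
    ∃ b : ZMod M, x = (M' : ZMod M) * b := by
  rw [red_eq, ZMod.natCast_eq_zero_iff] at hx
  obtain ⟨c, hc⟩ := hx
  refine ⟨(c : ZMod M), ?_⟩
  have : ((x.val : ℕ) : ZMod M) = x := ZMod.natCast_zmod_val x
  rw [← this, hc]
  push_cast
  ring

theorem red_mul_self {M M' : ℕ} (h : M' ∣ M) (b : ZMod M) : red h ((M' : ZMod M) * b) = 0 := by
  rw [map_mul, red_natCast]
  simp

/-- the fibre average as an average over `b` of `H (x + M' b)` -/
theorem fav_eq {M M' : ℕ} [NeZero M] (h : M' ∣ M) (H : ZMod M → ℝ) (x : ZMod M) :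
    fav M' H (red h x) = 𝔼 b : ZMod M, H (x + (M' : ZMod M) * b) := by
  unfold fav
  have hfil : (univ.filter (fun y : ZMod M => ((y.val : ℕ) : ZMod M') = red h x)) =
      univ.filter (fun y : ZMod M => red h y = red h x) := by
    apply Finset.filter_congr
    intro y _
    rw [red_eq h y]
  rw [hfil]
  set F := univ.filter (fun y : ZMod M => red h y = red h x) with hF
  have hne : F.Nonempty := ⟨x, by simp [hF]⟩
  have h1 : ∀ b : ZMod M, 𝔼 y ∈ F, H (y + (M' : ZMod M) * b) = 𝔼 y ∈ F, H y := by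
    intro b
    apply Finset.expect_bij (fun y _ => y + (M' : ZMod M) * b)
    · intro y hy
      simp only [hF, mem_filter, mem_univ, true_and] at hy ⊢
      rw [map_add, red_mul_self, add_zero, hy]
    · intro y _
      rfl
    · intro a _ b _ hab
      simpa using hab
    · intro y hy
      refine ⟨y - (M' : ZMod M) * b, ?_, by ring⟩
      simp only [hF, mem_filter, mem_univ, true_and] at hy ⊢
      rw [map_sub, red_mul_self, sub_zero, hy]
  have h2 : 𝔼 b : ZMod M, 𝔼 y ∈ F, H (y + (M' : ZMod M) * b) = 𝔼 y ∈ F, H y := by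
    simp_rw [h1]
    exact Fintype.expect_const _
  rw [← h2, Finset.expect_comm]
  have h3 : ∀ y ∈ F, 𝔼 b : ZMod M, H (y + (M' : ZMod M) * b) =
      𝔼 b : ZMod M, H (x + (M' : ZMod M) * b) := by
    intro y hy
    simp only [hF, mem_filter, mem_univ, true_and] at hy
    obtain ⟨b0, hb0⟩ := red_ker h (y - x) (by rw [map_sub, hy, sub_self])
    have hy' : y = x + (M' : ZMod M) * b0 := by rw [← hb0]; ring
    rw [hy', ← expect_shift (fun b => H (x + (M' : ZMod M) * b)) b0]
    apply Finset.expect_congr rfl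
    intro b _
    congr 1
    ring
  rw [Finset.expect_congr rfl h3, Finset.expect_const hne]

theorem fav_self {M : ℕ} [NeZero M] (H : ZMod M → ℝ) (x : ZMod M) : fav M H x = H x := by
  have h := fav_eq (dvd_refl M) H x
  have h1 : red (dvd_refl M) x = x := by
    rw [red_eq, ZMod.natCast_zmod_val]
  rw [h1] at h
  rw [h]
  simp

theorem fav_fav {M M1 M' : ℕ} [NeZero M] [NeZero M1] (h : M' ∣ M1) (h1 : M1 ∣ M)
    (H : ZMod M → ℝ) (ρ : ZMod M') : fav M' (fav M1 H) ρ = fav M' H ρ := by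
  obtain ⟨x, rfl⟩ := red_surj (h.trans h1) ρ
  have hcomp : red (h.trans h1) x = red h (red h1 x) := by
    rw [red_eq, red_eq h, red_eq h1]
    have h2 : ((((x.val : ℕ) : ZMod M1)).val : ZMod M') = ((x.val : ℕ) : ZMod M') := by
      rw [ZMod.val_natCast]
      rw [ZMod.natCast_eq_natCast_iff]
      exact (Nat.mod_modEq _ _).of_dvd h
    rw [h2]
  rw [fav_eq (h.trans h1) H x, hcomp, fav_eq h (fav M1 H) (red h1 x)]
  rw [← expect_red h1 (fun b => fav M1 H (red h1 x + (M' : ZMod M1) * b))]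
  have h3 : ∀ b : ZMod M, fav M1 H (red h1 x + (M' : ZMod M1) * red h1 b) =
      𝔼 b' : ZMod M, H (x + (M' : ZMod M) * b + (M1 : ZMod M) * b') := by
    intro b
    rw [← fav_eq h1 H]
    congr 1
    rw [map_add, map_mul, red_natCast]
  simp_rw [h3]
  rw [Finset.expect_comm]
  obtain ⟨c, hc⟩ := h
  have h4 : ∀ b' : ZMod M, 𝔼 b : ZMod M, H (x + (M' : ZMod M) * b + (M1 : ZMod M) * b') =
      𝔼 b : ZMod M, H (x + (M' : ZMod M) * b) := by
    intro b'
    rw [← expect_shift (fun b => H (x + (M' : ZMod M) * b)) ((c : ZMod M) * b')]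
    apply Finset.expect_congr rfl
    intro b _
    congr 1
    rw [hc]
    push_cast
    ring
  simp_rw [h4]
  exact Fintype.expect_const _

theorem fav_nonneg {M M' : ℕ} [NeZero M] {H : ZMod M → ℝ} (hH : ∀ x, 0 ≤ H x) (ρ : ZMod M') :
    0 ≤ fav M' H ρ := by
  unfold fav
  exact Finset.expect_nonneg (fun x _ => hH x)

/-- composing with the reduction map does not change the form -/
theorem lfm_red {s : ℕ} (d : Fin s → ℕ) (K : ℕ) {M M' : ℕ} [NeZero M] [NeZero M'] (h : M' ∣ M)
    (H : Option (Fin s) → ZMod M' → ℝ) :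
    lfm d K M (fun o x => H o (red h x)) = lfm d K M' H := by
  unfold lfm
  have h1 : ∀ (ρ κ : ZMod M) (o : Option (Fin s)),
      red h (ρ + sh d ((K : ZMod M) * κ) o) = red h ρ + sh d ((K : ZMod M') * red h κ) o := by
    intro ρ κ o
    rw [map_add]
    congr 1
    cases o with
    | none => simp [sh]
    | some i =>
      simp only [sh]
      rw [map_pow, map_mul, red_natCast]
  simp_rw [h1]
  have h2 : ∀ ρ : ZMod M, 𝔼 κ : ZMod M, ∏ o, H o (red h ρ + sh d ((K : ZMod M') * red h κ) o) =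
      𝔼 κ : ZMod M', ∏ o, H o (red h ρ + sh d ((K : ZMod M') * κ) o) := by
    intro ρ
    exact expect_red h (fun κ => ∏ o, H o (red h ρ + sh d ((K : ZMod M') * κ) o))
  simp_rw [h2]
  exact expect_red h (fun ρ => 𝔼 κ : ZMod M', ∏ o, H o (ρ + sh d ((K : ZMod M') * κ) o))

/-- if the fibre averages modulo `K'` vanish and `gcd q M ∣ K'` then the averages over the
progressions of difference `q` vanish -/
theorem ap_zero {M K' : ℕ} [NeZero M] (h : K' ∣ M) (q : ℕ) (hq : Nat.gcd q M ∣ K')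
    (f : ZMod M → ℝ) (hf : ∀ ρ : ZMod K', fav K' f ρ = 0) (x : ZMod M) :
    𝔼 a : ZMod M, f (x + (q : ZMod M) * a) = 0 := by
  obtain ⟨c, hc⟩ := hq
  -- `gcd q M = q u` in `ZMod M`
  have hg : ((Nat.gcd q M : ℕ) : ZMod M) = (q : ZMod M) * ((Nat.gcdA q M : ℤ) : ZMod M) := by
    have h1 := Nat.gcd_eq_gcd_ab q M
    have h2 : (((Nat.gcd q M : ℕ) : ℤ) : ZMod M) =
        ((q * Nat.gcdA q M + M * Nat.gcdB q M : ℤ) : ZMod M) := by rw [h1]
    push_cast at h2
    simpa using h2
  have hK : (K' : ZMod M) = (q : ZMod M) * ((Nat.gcdA q M : ℤ) : ZMod M) * (c : ZMod M) := by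
    rw [← hg, ← Nat.cast_mul, ← hc]
  have h1 : ∀ b : ZMod M, 𝔼 a : ZMod M, f (x + (q : ZMod M) * a + (K' : ZMod M) * b) =
      𝔼 a : ZMod M, f (x + (q : ZMod M) * a) := by
    intro b
    rw [← expect_shift (fun a => f (x + (q : ZMod M) * a))
      (((Nat.gcdA q M : ℤ) : ZMod M) * (c : ZMod M) * b)]
    apply Finset.expect_congr rfl
    intro a _
    congr 1
    rw [hK]
    ring
  have h2 : 𝔼 b : ZMod M, 𝔼 a : ZMod M, f (x + (q : ZMod M) * a + (K' : ZMod M) * b) =
      𝔼 a : ZMod M, f (x + (q : ZMod M) * a) := by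
    simp_rw [h1]
    exact Fintype.expect_const _
  rw [← h2, Finset.expect_comm]
  have h3 : ∀ a : ZMod M, 𝔼 b : ZMod M, f (x + (q : ZMod M) * a + (K' : ZMod M) * b) = 0 := by
    intro a
    rw [← fav_eq h f, hf]
  simp_rw [h3]
  exact Fintype.expect_const _

end LM

end

end Pool.Agent.Helper67.NX2
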